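import Pool.Agent.Helper2.NNP.Stm

/-!
# The majorant of Selberg with Fejér kernels (part MAJ)
-/

set_option autoImplicit false

open MeasureTheory Filter Topology Finset
open scoped Real

namespace Pool.Agent.Helper4.NNP

open Pool.Agent.Helper2.NNP

/-- `e(y)` -/
noncomputable def E (y : ℝ) : ℂ := Complex.exp (((2 * π * y : ℝ) : ℂ) * Complex.I)

theorem E_add (a b : ℝ) : E (a + b) = E a * E b := by
  unfold E
  rw [← Complex.exp_add]
  congr 1
  push_cast
  ring

theorem E_int (n : ℤ) : E n = 1 := by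
  unfold E
  rw [Complex.exp_eq_one_iff]
  exact ⟨n, by push_cast; ring⟩

theorem E_zero : E 0 = 1 := by
  have := E_int 0
  simpa using this

theorem norm_E (y : ℝ) : ‖E y‖ = 1 := Complex.norm_exp_ofReal_mul_I _

theorem E_nat_mul (n : ℕ) (y : ℝ) : E (n * y) = E y ^ n := by
  induction n with
  | zero => simp [E_zero]
  | succ n ih =>
    rw [pow_succ, ← ih, ← E_add]
    congr 1
    push_cast
    ring

theorem conj_E (y : ℝ) : (starRingEnd ℂ) (E y) = E (-y) := by
  unfold E
  rw [← Complex.exp_conj]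
  congr 1
  rw [map_mul, Complex.conj_ofReal, Complex.conj_I]
  push_cast
  ring

/-- the Dirichlet kernel -/
noncomputable def Sn (D : ℕ) (x : ℝ) : ℂ := ∑ h ∈ range D, E (h * x / D)

theorem Kn_eq (D : ℕ) (x : ℝ) : Kn D x = ‖Sn D x‖ ^ 2 / (D : ℝ) ^ 2 := by
  unfold Kn Sn E
  congr 3
  refine sum_congr rfl fun h _ => ?_
  congr 3
  ring

theorem Kn_nonneg (D : ℕ) (x : ℝ) : 0 ≤ Kn D x := by
  rw [Kn_eq]
  positivity

theorem Sn_neg (D : ℕ) (x : ℝ) : Sn D (-x) = (starRingEnd ℂ) (Sn D x) := by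
  unfold Sn
  rw [map_sum]
  refine sum_congr rfl fun h _ => ?_
  rw [conj_E]
  congr 1
  ring

theorem Kn_neg (D : ℕ) (x : ℝ) : Kn D (-x) = Kn D x := by
  rw [Kn_eq, Kn_eq, Sn_neg, Complex.norm_conj]

/-- periodicity -/
theorem Sn_add_mul (D : ℕ) (hD : 0 < D) (x : ℝ) (n : ℤ) : Sn D (x + n * D) = Sn D x := by
  unfold Sn
  refine sum_congr rfl fun h _ => ?_
  have hD' : (D : ℝ) ≠ 0 := by positivity
  have : (h : ℝ) * (x + n * D) / D = h * x / D + ((h * n : ℤ) : ℝ) := by
    push_cast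
    field_simp
  rw [this, E_add, E_int, mul_one]

theorem Kn_add_mul (D : ℕ) (hD : 0 < D) (x : ℝ) (n : ℤ) : Kn D (x + n * D) = Kn D x := by
  rw [Kn_eq, Kn_eq, Sn_add_mul D hD]

theorem sum_range_mul {M : Type} [AddCommMonoid M] (f : ℕ → M) (a b : ℕ) :
    ∑ i ∈ range (a * b), f i = ∑ j ∈ range a, ∑ s ∈ range b, f (j * b + s) := by
  induction a with
  | zero => simp
  | succ a ih =>
    rw [sum_range_succ, ← ih, add_mul, one_mul, sum_range_add]
    
/-- orthogonality -/
theorem orth (L : ℕ) (hL : 0 < L) (r r' : ℕ) (hr : r < L) (hr' : r' < L) :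
    ∑ j ∈ range L, E (((r : ℝ) - r') * j / L) = if r = r' then (L : ℂ) else 0 := by
  have hL' : (L : ℝ) ≠ 0 := by positivity
  split_ifs with h
  · subst h
    simp [E_zero]
  · set z := E (((r : ℝ) - r') / L) with hz
    have h1 : ∀ j ∈ range L, E (((r : ℝ) - r') * j / L) = z ^ j := by
      intro j _
      rw [hz, ← E_nat_mul]
      congr 1
      ring
    rw [sum_congr rfl h1]
    have h2 : z ^ L = 1 := by
      rw [hz, ← E_nat_mul, show (L : ℝ) * (((r : ℝ) - r') / L) = ((r - r' : ℤ) : ℝ) by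
        push_cast; field_simp]
      exact E_int _
    have h3 : z ≠ 1 := by
      intro h3
      rw [hz] at h3
      unfold E at h3
      rw [Complex.exp_eq_one_iff] at h3
      obtain ⟨n, hn⟩ := h3
      have h4 : ((2 * π * (((r : ℝ) - r') / L) : ℝ) : ℂ) = ((n * (2 * π) : ℝ) : ℂ) := by
        have : (((2 * π * (((r : ℝ) - r') / L) : ℝ) : ℂ) - ((n * (2 * π) : ℝ) : ℂ)) * Complex.I = 0 := by
          rw [sub_mul, hn]
          push_cast
          ring
        rcases mul_eq_zero.1 this with h5 | h5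
        · exact sub_eq_zero.1 h5
        · exact absurd h5 Complex.I_ne_zero
      have h5 := Complex.ofReal_injective h4
      have h6 : ((r : ℝ) - r') / L = n := by
        have h7 : (2 * π) * (((r : ℝ) - r') / L) = (2 * π) * n := by
          rw [h5]
          ring
        exact mul_left_cancel₀ (by positivity) h7
      rw [div_eq_iff hL'] at h6
      have h7 : (r : ℤ) - r' = n * L := by exact_mod_cast h6
      have h8 : n = 0 := by
        by_contra hn0
        have h9 : (L : ℤ) ≤ |n * L| := by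
          rw [abs_mul, Nat.abs_cast]
          have : 1 ≤ |n| := Int.one_le_abs hn0
          nlinarith
        rw [← h7] at h9
        have h10 : |(r : ℤ) - r'| < L := by
          rw [abs_lt]
          constructor <;> omega
        omega
      rw [h8, zero_mul] at h7
      omega
    have h4 : (∑ j ∈ range L, z ^ j) * (z - 1) = 0 := by
      rw [geom_sum_mul, h2, sub_self]
    rcases mul_eq_zero.1 h4 with h5 | h5
    · exact h5
    · exact absurd (sub_eq_zero.1 h5) h3

/-- Parseval -/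
theorem pars (L : ℕ) (hL : 0 < L) (c : ℕ → ℂ) (hc : ∀ r, ‖c r‖ = 1) :
    ∑ j ∈ range L, ‖∑ r ∈ range L, E (r * j / L) * c r‖ ^ 2 = (L : ℝ) ^ 2 := by
  have h1 : ∀ j : ℕ, ((‖∑ r ∈ range L, E (r * j / L) * c r‖ ^ 2 : ℝ) : ℂ) =
      ∑ r ∈ range L, ∑ r' ∈ range L, c r * (starRingEnd ℂ) (c r') * E (((r : ℝ) - r') * j / L) := by
    intro j
    rw [← Complex.normSq_eq_norm_sq, ← Complex.mul_conj, map_sum, sum_mul_sum]
    refine sum_congr rfl fun r _ => sum_congr rfl fun r' _ => ?_
    rw [map_mul, conj_E]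
    have : E (((r : ℝ) - r') * j / L) = E (r * j / L) * E (-(r' * j / L)) := by
      rw [← E_add]
      congr 1
      ring
    rw [this]
    ring
  have h2 : ((∑ j ∈ range L, ‖∑ r ∈ range L, E (r * j / L) * c r‖ ^ 2 : ℝ) : ℂ) = (L : ℂ) ^ 2 := by
    rw [Complex.ofReal_sum]
    rw [sum_congr rfl fun j _ => h1 j, sum_comm]
    have h3 : ∀ r ∈ range L, ∑ j ∈ range L, ∑ r' ∈ range L,
        c r * (starRingEnd ℂ) (c r') * E (((r : ℝ) - r') * j / L) = (L : ℂ) := by
      intro r hr
      rw [sum_comm]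
      have h4 : ∀ r' ∈ range L, ∑ j ∈ range L,
          c r * (starRingEnd ℂ) (c r') * E (((r : ℝ) - r') * j / L) =
          if r = r' then (L : ℂ) else 0 := by
        intro r' hr'
        rw [← mul_sum, orth L hL r r' (mem_range.1 hr) (mem_range.1 hr')]
        split_ifs with h
        · subst h
          rw [Complex.mul_conj, Complex.normSq_eq_norm_sq, hc]
          simp
        · simp
      rw [sum_congr rfl h4, sum_ite_eq, if_pos hr]
    rw [sum_congr rfl h3, sum_const, card_range, nsmul_eq_mul]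
    ring
  exact_mod_cast h2

/-- factorisation of the Dirichlet kernel -/
theorem Sn_mul (D L : ℕ) (hD : 0 < D) (hL : 0 < L) (y : ℝ) :
    Sn (D * L) y = (∑ r ∈ range L, E (r * y / (D * L : ℕ))) * Sn D y := by
  have hD' : (D : ℝ) ≠ 0 := by positivity
  have hL' : (L : ℝ) ≠ 0 := by positivity
  have h1 : Sn (D * L) y = ∑ i ∈ range (D * L), E (i * y / (D * L : ℕ)) := rfl
  have h2 : Sn D y = ∑ i ∈ range D, E (i * y / D) := rfl
  rw [h1, h2, sum_range_mul, sum_mul_sum, sum_comm]
  refine sum_congr rfl fun s _ => sum_congr rfl fun j _ => ?_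
  rw [← E_add]
  congr 1
  push_cast
  field_simp
  ring

/-- averages of the kernel over multiples -/
theorem Kn_sum (D L : ℕ) (hD : 0 < D) (hL : 0 < L) (x : ℝ) :
    ∑ j ∈ range L, Kn (D * L) ((j * D : ℕ) - x) = Kn D x := by
  have hD' : (D : ℝ) ≠ 0 := by positivity
  have hL' : (L : ℝ) ≠ 0 := by positivity
  have h1 : ∀ j ∈ range L, Kn (D * L) ((j * D : ℕ) - x) =
      ‖∑ r ∈ range L, E (r * j / L) * E (-(r * x / (D * L)))‖ ^ 2 * (Kn D x / (L : ℝ) ^ 2) := by
    intro j _
    rw [Kn_eq, Sn_mul D L hD hL, norm_mul, mul_pow]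
    have h2 : Sn D ((j * D : ℕ) - x) = Sn D (-x) := by
      have := Sn_add_mul D hD (-x) j
      rw [← this]
      congr 1
      push_cast
      ring
    have h3 : ∑ r ∈ range L, E (r * ((j * D : ℕ) - x) / (D * L : ℕ)) =
        ∑ r ∈ range L, E (r * j / L) * E (-(r * x / (D * L))) := by
      refine sum_congr rfl fun r _ => ?_
      rw [← E_add]
      congr 1
      push_cast
      field_simp
      ring
    rw [h2, h3, ← Kn_neg D x, Kn_eq D (-x)]
    generalize ‖∑ r ∈ range L, E (r * j / L) * E (-(r * x / (D * L)))‖ = a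
    generalize ‖Sn D (-x)‖ = b
    push_cast
    field_simp
  rw [sum_congr rfl h1, ← sum_mul, pars L hL (fun r => E (-(r * x / (D * L)))) fun r => norm_E _]
  field_simp

/-- the kernel near zero -/
theorem Kn_ge (M : ℕ) (hM : 0 < M) (t : ℝ) (ht : |t| ≤ 1 / 2) : 2 / 5 ≤ Kn M t := by
  have hM' : (0 : ℝ) < M := by positivity
  have hπ := Real.pi_pos
  have hπ2 : π < 3.15 := Real.pi_lt_d2
  by_cases h0 : t = 0
  · subst h0
    rw [Kn_eq]
    have : Sn M 0 = M := by
      unfold Sn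
      simp [E_zero]
    rw [this]
    simp only [Complex.norm_natCast]
    rw [div_self (by positivity)]
    norm_num
  have ht0 : 0 < |t| := abs_pos.2 h0
  have h1 : Sn M t * (E (t / M) - 1) = E t - 1 := by
    have h2 : Sn M t = ∑ h ∈ range M, E (t / M) ^ h := by
      unfold Sn
      refine sum_congr rfl fun h _ => ?_
      rw [← E_nat_mul]
      congr 1
      ring
    rw [h2, geom_sum_mul, ← E_nat_mul]
    congr 2
    field_simp
  have hE : ∀ y : ℝ, ‖E y - 1‖ = 2 * |Real.sin (π * y)| := by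
    intro y
    unfold E
    rw [mul_comm, Complex.norm_exp_I_mul_ofReal_sub_one, Real.norm_eq_abs, abs_mul,
      abs_of_pos (by norm_num : (0 : ℝ) < 2)]
    congr 3
    ring
  have h2 : ‖Sn M t‖ * (2 * |Real.sin (π * (t / M))|) = 2 * |Real.sin (π * t)| := by
    rw [← hE, ← hE, ← norm_mul, h1]
  have h3 : |Real.sin (π * (t / M))| ≤ π * |t| / M := by
    refine Real.abs_sin_le_abs.trans (le_of_eq ?_)
    rw [abs_mul, abs_div, abs_of_pos hπ, abs_of_pos hM']
    ring
  have h4 : 2 * |t| ≤ |Real.sin (π * t)| := by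
    have h5 : |π * t| ≤ π / 2 := by
      rw [abs_mul, abs_of_pos hπ]
      nlinarith
    refine le_trans (le_of_eq ?_) (Real.mul_abs_le_abs_sin h5)
    rw [abs_mul, abs_of_pos hπ]
    field_simp
  have h5 : 2 * |t| ≤ ‖Sn M t‖ * (π * |t| / M) := by
    have h6 : ‖Sn M t‖ * |Real.sin (π * (t / M))| ≤ ‖Sn M t‖ * (π * |t| / M) :=
      mul_le_mul_of_nonneg_left h3 (norm_nonneg _)
    linarith
  have h6 : 2 * M ≤ ‖Sn M t‖ * π := by
    have h7 : ‖Sn M t‖ * (π * |t| / M) = (‖Sn M t‖ * π) * |t| / M := by ring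
    rw [h7, le_div_iff₀ hM'] at h5
    by_contra hcon
    push Not at hcon
    nlinarith
  rw [Kn_eq, le_div_iff₀ (by positivity)]
  have h7 : (2 * (M : ℝ)) ^ 2 ≤ (‖Sn M t‖ * π) ^ 2 := pow_le_pow_left₀ (by positivity) h6 2
  have h8 : π ^ 2 ≤ 10 := by nlinarith
  have h9 : (‖Sn M t‖ * π) ^ 2 ≤ 10 * ‖Sn M t‖ ^ 2 := by
    rw [mul_pow]
    nlinarith [sq_nonneg ‖Sn M t‖]
  nlinarith

/-- the kernel as a sum over the multiples below a common multiple -/
theorem Kn_sum' (M D : ℕ) (hM : 0 < M) (hD : D ∣ M) (x : ℝ) :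
    ∑ P ∈ range M, (if D ∣ P then Kn M ((P : ℕ) - x) else 0) = Kn D x := by
  obtain ⟨L, rfl⟩ := hD
  have hD0 : 0 < D := Nat.pos_of_mul_pos_right hM
  have hL0 : 0 < L := Nat.pos_of_mul_pos_left hM
  rw [← Kn_sum D L hD0 hL0 x, mul_comm D L, sum_range_mul]
  refine sum_congr rfl fun j _ => ?_
  rw [sum_eq_single 0]
  · rw [add_zero, if_pos (Dvd.intro_left j rfl)]
  · intro s hs hs0
    rw [if_neg]
    intro h
    have h1 : D ∣ s := (Nat.dvd_add_right (Dvd.intro_left j rfl)).1 h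
    exact hs0 (Nat.eq_zero_of_dvd_of_lt h1 (mem_range.1 hs))
  · intro h
    exact absurd (mem_range.2 hD0) h

/-- the majorant as a sum of squares -/
theorem SS_eq (ρ : ℕ → ℝ) (D M : ℕ) (hM : 0 < M) (hdvd : ∀ d ∈ Icc 1 D, d ∣ M) (x : ℝ) :
    SS ρ D x = ∑ P ∈ range M, Kn M ((P : ℕ) - x) * (∑ d ∈ Icc 1 D, if d ∣ P then ρ d else 0) ^ 2 := by
  unfold SS
  have h1 : ∀ d ∈ Icc 1 D, ∀ e ∈ Icc 1 D, ρ d * ρ e * Kn (Nat.lcm d e) x =
      ∑ P ∈ range M, Kn M ((P : ℕ) - x) * ((if d ∣ P then ρ d else 0) * (if e ∣ P then ρ e else 0)) := by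
    intro d hd e he
    rw [← Kn_sum' M (Nat.lcm d e) hM (Nat.lcm_dvd (hdvd d hd) (hdvd e he)) x, mul_sum]
    refine sum_congr rfl fun P _ => ?_
    by_cases hdP : d ∣ P
    · by_cases heP : e ∣ P
      · rw [if_pos (Nat.lcm_dvd hdP heP), if_pos hdP, if_pos heP]
        ring
      · rw [if_neg (fun h => heP ((Nat.dvd_lcm_right d e).trans h)), if_neg heP]
        ring
    · rw [if_neg (fun h => hdP ((Nat.dvd_lcm_left d e).trans h)), if_neg hdP]
      ring
  rw [sum_congr rfl fun d hd => sum_congr rfl fun e he => h1 d hd e he]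
  rw [sum_congr rfl fun d _ => sum_comm, sum_comm]
  refine sum_congr rfl fun P _ => ?_
  rw [sq, sum_mul_sum, mul_sum]
  refine sum_congr rfl fun d _ => ?_
  rw [mul_sum]

theorem t_MAJ : S_MAJ := by
  intro D ρ hD hρ
  have hM : 0 < D.factorial := Nat.factorial_pos D
  have hdvd : ∀ d ∈ Icc 1 D, d ∣ D.factorial := by
    intro d hd
    rw [mem_Icc] at hd
    exact Nat.dvd_factorial (by omega) hd.2
  refine ⟨fun x => ?_, fun x P hP hdiv => ?_⟩
  · rw [SS_eq ρ D _ hM hdvd]
    exact sum_nonneg fun P _ => mul_nonneg (Kn_nonneg _ _) (sq_nonneg _)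
  · rw [SS_eq ρ D _ hM hdvd]
    set M := D.factorial with hMdef
    have hMz : (0 : ℤ) < M := by exact_mod_cast hM
    obtain ⟨P0, hP0⟩ : ∃ P0 : ℕ, (P0 : ℤ) = P % M :=
      ⟨(P % M).toNat, Int.toNat_of_nonneg (Int.emod_nonneg _ hMz.ne')⟩
    have hP0M : P0 < M := by
      have := Int.emod_lt_of_pos P hMz
      omega
    have hterm : ∑ d ∈ Icc 1 D, (if d ∣ P0 then ρ d else 0) = 1 := by
      rw [sum_eq_single 1]
      · simp [hρ]
      · intro d hd hd1
        rw [if_neg]
        intro h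
        rw [mem_Icc] at hd
        apply hdiv d (mem_Icc.2 ⟨by omega, hd.2⟩)
        have h1 : (d : ℤ) ∣ P % M := by
          rw [← hP0]
          exact_mod_cast h
        have h2 : (d : ℤ) ∣ M := by
          exact_mod_cast hdvd d (mem_Icc.2 hd)
        exact (Int.dvd_iff_dvd_of_dvd_sub (by
          have h3 : P - P % M = M * (P / M) := by
            have := Int.emod_add_mul_ediv P M
            linarith
          rw [h3]
          exact h2.mul_right _)).2 h1
      · intro h
        exact absurd (mem_Icc.2 ⟨le_rfl, hD⟩) h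
    have h1 : Kn M ((P0 : ℕ) - x) = Kn M (P - x) := by
      have h2 : (P0 : ℝ) = P - (P / M : ℤ) * M := by
        have h3 : (P0 : ℤ) = P - (P / M) * M := by
          have := Int.emod_add_mul_ediv P M
          rw [hP0]
          linarith
        exact_mod_cast h3
      have h3 := Kn_add_mul M hM (P0 - x) (P / M : ℤ)
      rw [← h3]
      congr 1
      rw [h2]
      ring
    have h2 := Kn_ge M hM (P - x) hP
    have h3 := single_le_sum (f := fun P : ℕ => Kn M ((P : ℕ) - x) *
      (∑ d ∈ Icc 1 D, if d ∣ P then ρ d else 0) ^ 2) (s := range M)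
      (fun P _ => mul_nonneg (Kn_nonneg _ _) (sq_nonneg _)) (mem_range.2 hP0M)
    refine le_trans ?_ h3
    rw [hterm, h1]
    linarith

end Pool.Agent.Helper4.NNP
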